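import Pool.Agent.Helper64.IG.Goals

open scoped BigOperators

universe u

namespace Pool.Agent.Helper64.IG.PkSPI

open Pool.Agent.Helper64.IG

variable {K : Type u} [Field K] {p : ℕ}

theorem dl_of_len {l : List (Fin p → K)} (h : l.length = p) :
    dl l = Matrix.det (fun i j : Fin p => l.get (Fin.cast h.symm j) i) := by
  unfold dl
  rw [dif_pos h]

theorem dl_of_ne {l : List (Fin p → K)} (h : l.length ≠ p) : dl l = 0 := by
  unfold dl
  rw [dif_neg h]

theorem dl_not_nodup {l : List (Fin p → K)} (h : ¬ l.Nodup) : dl l = 0 := by
  by_cases hl : l.length = p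
  · rw [dl_of_len hl]
    rw [List.nodup_iff_injective_get] at h
    unfold Function.Injective at h
    push Not at h
    obtain ⟨a, b, hab, hne⟩ := h
    refine Matrix.det_zero_of_column_eq (i := Fin.cast hl a) (j := Fin.cast hl b) ?_ ?_
    · intro e
      apply hne
      apply Fin.ext
      have := congrArg Fin.val e
      simpa using this
    · intro k
      have h1 : Fin.cast hl.symm (Fin.cast hl a) = a := by
        apply Fin.ext
        rfl
      have h2 : Fin.cast hl.symm (Fin.cast hl b) = b := by
        apply Fin.ext
        rfl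
      rw [h1, h2, hab]
  · exact dl_of_ne hl

theorem getElem_upd {α : Type*} (A B : List α) (v z : α) (m : ℕ)
    (h : m < (A ++ v :: B).length) (h' : m < (A ++ z :: B).length) :
    (A ++ v :: B)[m] = if m = A.length then v else (A ++ z :: B)[m] := by
  split_ifs with hm
  · subst hm
    simp
  · rcases lt_or_gt_of_ne hm with hlt | hgt
    · rw [List.getElem_append_left hlt, List.getElem_append_left hlt]
    · rw [List.getElem_append_right hgt.le, List.getElem_append_right hgt.le]
      obtain ⟨r, hr⟩ : ∃ r, m - A.length = r + 1 := ⟨m - A.length - 1, by omega⟩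
      simp only [hr, List.getElem_cons_succ]

theorem dl_upd (A B : List (Fin p → K)) (h : (A ++ 0 :: B).length = p) (k : Fin p)
    (hk : k.val = A.length) (v : Fin p → K) :
    dl (A ++ v :: B) = (Matrix.updateCol
      (fun i j : Fin p => (A ++ 0 :: B).get (Fin.cast h.symm j) i) k v).det := by
  have h' : (A ++ v :: B).length = p := by
    simpa using h
  rw [dl_of_len h']
  congr 1
  funext i j
  rw [Matrix.updateCol_apply]
  change (A ++ v :: B)[j.val] i = if j = k then v i else (A ++ 0 :: B)[j.val] i
  rw [getElem_upd A B v 0 j.val (by rw [h']; exact j.2) (by rw [h]; exact j.2)]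
  by_cases hj : j = k
  · rw [if_pos hj, if_pos (by rw [hj, hk])]
  · rw [if_neg hj, if_neg]
    intro e
    apply hj
    apply Fin.ext
    rw [e, hk]

theorem dl_add (A B : List (Fin p → K)) (v w : Fin p → K) :
    dl (A ++ (v + w) :: B) = dl (A ++ v :: B) + dl (A ++ w :: B) := by
  by_cases h : (A ++ 0 :: B).length = p
  · have hk : A.length < p := by
      rw [List.length_append, List.length_cons] at h
      omega
    rw [dl_upd A B h ⟨A.length, hk⟩ rfl, dl_upd A B h ⟨A.length, hk⟩ rfl,
      dl_upd A B h ⟨A.length, hk⟩ rfl, Matrix.det_updateCol_add]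
  · rw [dl_of_ne, dl_of_ne, dl_of_ne, add_zero]
    · simpa using h
    · simpa using h
    · simpa using h

theorem dl_smul (A B : List (Fin p → K)) (c : K) (v : Fin p → K) :
    dl (A ++ (c • v) :: B) = c * dl (A ++ v :: B) := by
  by_cases h : (A ++ 0 :: B).length = p
  · have hk : A.length < p := by
      rw [List.length_append, List.length_cons] at h
      omega
    rw [dl_upd A B h ⟨A.length, hk⟩ rfl, dl_upd A B h ⟨A.length, hk⟩ rfl,
      Matrix.det_updateCol_smul]
  · rw [dl_of_ne, dl_of_ne, mul_zero]
    · simpa using h
    · simpa using h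

theorem dl_dup (A B : List (Fin p → K)) (v : Fin p → K) : dl (A ++ v :: v :: B) = 0 := by
  apply dl_not_nodup
  intro h
  have := (List.nodup_append.1 h).2.1
  simp at this

theorem dl_swap (A B : List (Fin p → K)) (x y : Fin p → K) :
    dl (A ++ x :: y :: B) = -1 * dl (A ++ y :: x :: B) := by
  have h := dl_dup A B (x + y)
  rw [dl_add] at h
  have e1 : dl (A ++ x :: (x + y) :: B) = dl (A ++ x :: y :: B) := by
    have := dl_add (A ++ [x]) B x y
    simp only [List.append_assoc, List.singleton_append] at this
    rw [this, dl_dup, zero_add]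
  have e2 : dl (A ++ y :: (x + y) :: B) = dl (A ++ y :: x :: B) := by
    have := dl_add (A ++ [y]) B x y
    simp only [List.append_assoc, List.singleton_append] at this
    rw [this, dl_dup, add_zero]
  rw [e1, e2] at h
  rw [neg_one_mul]
  exact eq_neg_of_add_eq_zero_left h

theorem dl_perm {X X' : List (Fin p → K)} (h : X.Perm X') :
    ∃ ε : K, ∀ A B, dl (A ++ X ++ B) = ε * dl (A ++ X' ++ B) := by
  induction h with
  | nil => exact ⟨1, fun A B => by rw [one_mul]⟩
  | cons x _ ih =>
    obtain ⟨ε, hε⟩ := ih
    refine ⟨ε, fun A B => ?_⟩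
    have := hε (A ++ [x]) B
    simpa [List.append_assoc] using this
  | swap x y l =>
    refine ⟨-1, fun A B => ?_⟩
    have := dl_swap A (l ++ B) y x
    simpa [List.append_assoc] using this
  | trans _ _ ih1 ih2 =>
    obtain ⟨ε, hε⟩ := ih1
    obtain ⟨δ, hδ⟩ := ih2
    refine ⟨ε * δ, fun A B => ?_⟩
    rw [hε, hδ, mul_assoc]

theorem exists_sel {α : Type*} (F : List α) : ∀ X : List α, X.Nodup → (∀ v ∈ X, v ∈ F) →
    ∃ S : List Bool, S.length = F.length ∧ X.Perm (sel F S) := by
  classical
  induction F with
  | nil =>
    intro X _ hX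
    refine ⟨[], rfl, ?_⟩
    have : X = [] := by
      apply List.eq_nil_iff_forall_not_mem.2
      intro v hv
      simpa using hX v hv
    subst this
    exact List.Perm.nil
  | cons a F ih =>
    intro X hn hX
    by_cases ha : a ∈ X
    · obtain ⟨S, hS, hp⟩ := ih (X.erase a) (hn.erase a) (by
        intro v hv
        rw [hn.mem_erase_iff] at hv
        have := hX v hv.2
        rw [List.mem_cons] at this
        exact this.resolve_left hv.1)
      refine ⟨true :: S, by simp [hS], ?_⟩
      have h1 := List.perm_cons_erase ha
      exact h1.trans (List.Perm.cons a hp)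
    · obtain ⟨S, hS, hp⟩ := ih X hn (by
        intro v hv
        have := hX v hv
        rw [List.mem_cons] at this
        refine this.resolve_left ?_
        rintro rfl
        exact ha hv)
      exact ⟨false :: S, by simp [hS], hp⟩

/-- The abstract form of both halves. -/
theorem core {W : Type*} [AddCommGroup W] [Module K W] (Φ : List (Fin p → K) → W)
    (F C : List (Fin p → K))
    (hadd : ∀ A B v w, Φ (A ++ (v + w) :: B) = Φ (A ++ v :: B) + Φ (A ++ w :: B))
    (hsmul : ∀ A B (c : K) v, Φ (A ++ (c • v) :: B) = c • Φ (A ++ v :: B))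
    (hnd : ∀ A, ¬ A.Nodup → Φ A = 0)
    (hC : ∀ A, (∃ v ∈ A, v ∈ C) → Φ A = 0)
    (hperm : ∀ A B, A.Perm B → ∃ ε : K, Φ A = ε • Φ B) :
    ∀ X : List (Fin p → K), (∀ v ∈ X, v ∈ Submodule.span K {u | u ∈ F ++ C}) →
      Φ X ∈ Submodule.span K {g : W | ∃ S : List Bool, S.length = F.length ∧ g = Φ (sel F S)} := by
  set D := Submodule.span K {g : W | ∃ S : List Bool, S.length = F.length ∧ g = Φ (sel F S)} with hD
  have hb : ∀ X : List (Fin p → K), (∀ v ∈ X, v ∈ F ++ C) → Φ X ∈ D := by
    intro X hX
    by_cases h1 : ∃ v ∈ X, v ∈ C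
    · rw [hC X h1]
      exact D.zero_mem
    · by_cases h2 : X.Nodup
      · obtain ⟨S, hS, hp⟩ := exists_sel F X h2 (by
          intro v hv
          have := hX v hv
          rw [List.mem_append] at this
          refine this.resolve_right ?_
          intro hc
          exact h1 ⟨v, hv, hc⟩)
        obtain ⟨ε, hε⟩ := hperm _ _ hp
        rw [hε]
        exact D.smul_mem _ (Submodule.subset_span ⟨S, hS, rfl⟩)
      · rw [hnd X h2]
        exact D.zero_mem
  have hc : ∀ X2 X1 : List (Fin p → K), (∀ v ∈ X1, v ∈ F ++ C) →
      (∀ v ∈ X2, v ∈ Submodule.span K {u | u ∈ F ++ C}) → Φ (X1 ++ X2) ∈ D := by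
    intro X2
    induction X2 with
    | nil =>
      intro X1 h1 _
      rw [List.append_nil]
      exact hb X1 h1
    | cons v X2 ih =>
      intro X1 h1 h2
      have h2' : ∀ v ∈ X2, v ∈ Submodule.span K {u | u ∈ F ++ C} :=
        fun w hw => h2 w (List.mem_cons_of_mem _ hw)
      have hv := h2 v List.mem_cons_self
      refine Submodule.span_induction (p := fun v _ => Φ (X1 ++ v :: X2) ∈ D) ?_ ?_ ?_ ?_ hv
      · intro w hw
        have := ih (X1 ++ [w]) (by
          intro x hx
          rw [List.mem_append, List.mem_singleton] at hx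
          rcases hx with hx | hx
          · exact h1 x hx
          · rw [hx]
            exact hw) h2'
        rwa [List.append_assoc, List.singleton_append] at this
      · have := hsmul X1 X2 (0 : K) (0 : Fin p → K)
        rw [zero_smul, zero_smul] at this
        rw [this]
        exact D.zero_mem
      · intro x y _ _ hx hy
        rw [hadd]
        exact D.add_mem hx hy
      · intro c x _ hx
        rw [hsmul]
        exact D.smul_mem _ hx
  intro X hX
  have := hc X [] (by simp) hX
  simpa using this

theorem spi : G_SPI.{u} := by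
  intro K _ p F C X hX
  refine ⟨?_, ?_⟩
  · refine core (fun X => fun Y => dl (X ++ C ++ Y)) F C ?_ ?_ ?_ ?_ ?_ X hX
    · intro A B v w
      funext Y
      have := dl_add A (B ++ C ++ Y) v w
      simpa [List.append_assoc] using this
    · intro A B c v
      funext Y
      have := dl_smul A (B ++ C ++ Y) c v
      simpa [List.append_assoc] using this
    · intro A hA
      funext Y
      apply dl_not_nodup
      intro h
      apply hA
      rw [List.append_assoc] at h
      exact (List.nodup_append.1 h).1
    · rintro A ⟨v, hv, hc⟩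
      funext Y
      apply dl_not_nodup
      intro h
      have h1 := (List.nodup_append.1 h).1
      exact (List.nodup_append.1 h1).2.2 v hv v hc rfl
    · intro A B hAB
      obtain ⟨ε, hε⟩ := dl_perm hAB
      refine ⟨ε, ?_⟩
      funext Y
      have := hε [] (C ++ Y)
      simpa [List.append_assoc] using this
  · refine core (fun X => fun Y => dl (Y ++ C ++ X)) F C ?_ ?_ ?_ ?_ ?_ X hX
    · intro A B v w
      funext Y
      have := dl_add (Y ++ C ++ A) B v w
      simpa [List.append_assoc] using this
    · intro A B c v
      funext Y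
      have := dl_smul (Y ++ C ++ A) B c v
      simpa [List.append_assoc] using this
    · intro A hA
      funext Y
      apply dl_not_nodup
      intro h
      apply hA
      exact (List.nodup_append.1 h).2.1
    · rintro A ⟨v, hv, hc⟩
      funext Y
      apply dl_not_nodup
      intro h
      refine (List.nodup_append.1 h).2.2 v (List.mem_append_right _ hc) v hv rfl
    · intro A B hAB
      obtain ⟨ε, hε⟩ := dl_perm hAB
      refine ⟨ε, ?_⟩
      funext Y
      have := hε (Y ++ C) []
      simpa [List.append_assoc] using this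

end Pool.Agent.Helper64.IG.PkSPI

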